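import Mathlib

/-!
# If the second jet graph is co-chordal then all jet graphs are

For a connected graph `G` the graph of 2-jets is co-chordal only if `G` is complete multipartite,
and then all jet graphs of `G` are co-chordal.
-/

namespace Pool.Agent.Results.MP_bdbea1_co.JetsStayCochordal

/-- A graph is chordal if it has no cycle of length at least 4 without a chord. -/
def IsChordal {V : Type} (H : SimpleGraph V) : Prop :=
  ∀ n : ℕ, 4 ≤ n → ¬ ∃ f : ZMod n → V, Function.Injective f ∧
    ∀ i j, H.Adj (f i) (f j) ↔ j = i + 1 ∨ i = j + 1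

/-- A graph is co-chordal if its complement is chordal. -/
def IsCochordal {V : Type} (H : SimpleGraph V) : Prop := IsChordal Hᶜ

/-- The graph of `s`-jets. -/
def jets {V : Type} (G : SimpleGraph V) (s : ℕ) : SimpleGraph (V × Fin (s + 1)) where
  Adj x y := G.Adj x.1 y.1 ∧ (x.2 : ℕ) + y.2 ≤ s
  symm := ⟨fun _ _ h => ⟨h.1.symm, by rw [add_comm]; exact h.2⟩⟩
  loopless := ⟨fun _ h => G.loopless.irrefl _ h.1⟩

/-- `G` is connected of diameter `d`. -/
def HasDiameter {V : Type} (G : SimpleGraph V) (d : ℕ) : Prop :=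
  G.Connected ∧ (∀ u v, G.dist u v ≤ d) ∧ ∃ u v, G.dist u v = d

variable {V : Type} {G : SimpleGraph V}

lemma zmod4_cases (a : ZMod 4) : a = 0 ∨ a = 1 ∨ a = 2 ∨ a = 3 := by
  revert a
  decide

lemma exists_neighbor (hG : G.Connected) {p q : V} (hpq : G.Adj p q) (k : V) : ∃ i, G.Adj i k := by
  by_cases hk : k = p
  · subst hk
    exact ⟨q, hpq.symm⟩
  · obtain ⟨w⟩ := hG.preconnected k p
    cases w with
    | nil => exact absurd rfl hk
    | cons h _ => exact ⟨_, h.symm⟩

/-- In a connected graph whose 2-jets are co-chordal every edge is dominating. -/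
lemma dominating (hG : G.Connected) (h2 : IsCochordal (jets G 2)) {p q k : V} (hpq : G.Adj p q)
    (h1 : ¬ G.Adj k p) : G.Adj k q := by
  by_contra h3
  obtain ⟨i, hi⟩ := exists_neighbor hG hpq k
  apply h2 4 le_rfl
  -- the cycle `i₂ p₁ k₀ q₁` of the complement
  have hkp : k ≠ p := by
    rintro rfl
    exact h3 hpq
  have hkq : k ≠ q := by
    rintro rfl
    exact h1 hpq.symm
  have hip : i ≠ p := by
    rintro rfl
    exact h1 hi.symm
  have hiq : i ≠ q := by
    rintro rfl
    exact h3 hi.symm
  have hik : i ≠ k := hi.ne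
  have hpq' : p ≠ q := hpq.ne
  let f : ZMod 4 → V × Fin 3 := fun z =>
    if z = 0 then (i, 2) else if z = 1 then (p, 1) else if z = 2 then (k, 0) else (q, 1)
  have f0 : f 0 = (i, 2) := rfl
  have f1 : f 1 = (p, 1) := rfl
  have f2 : f 2 = (k, 0) := rfl
  have f3 : f 3 = (q, 1) := rfl
  refine ⟨f, ?_, ?_⟩
  · intro a b hab
    have ha := zmod4_cases a
    have hb := zmod4_cases b
    rcases ha with rfl | rfl | rfl | rfl <;> rcases hb with rfl | rfl | rfl | rfl <;>
      simp only [f0, f1, f2, f3, Prod.mk.injEq] at hab ⊢ <;>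
      first
        | rfl
        | exact absurd hab.1 hip
        | exact absurd hab.1.symm hip
        | exact absurd hab.1 hiq
        | exact absurd hab.1.symm hiq
        | exact absurd hab.1 hik
        | exact absurd hab.1.symm hik
        | exact absurd hab.1 hkp
        | exact absurd hab.1.symm hkp
        | exact absurd hab.1 hkq
        | exact absurd hab.1.symm hkq
        | exact absurd hab.1 hpq'
        | exact absurd hab.1.symm hpq'
  · intro a b
    have ha := zmod4_cases a
    have hb := zmod4_cases b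
    have n0 : ((i, 2) : V × Fin 3) ≠ (k, 0) := fun h => hik (congrArg Prod.fst h)
    have e1 : (jets G 2).Adj (i, 2) (k, 0) := ⟨hi, by norm_num⟩
    have e2 : (jets G 2).Adj (p, 1) (q, 1) := ⟨hpq, by norm_num⟩
    have e3 : ¬ (jets G 2).Adj (i, 2) (p, 1) := fun h => by have := h.2; norm_num at this
    have e4 : ¬ (jets G 2).Adj (i, 2) (q, 1) := fun h => by have := h.2; norm_num at this
    have e5 : ¬ (jets G 2).Adj (k, 0) (p, 1) := fun h => h1 h.1
    have e6 : ¬ (jets G 2).Adj (k, 0) (q, 1) := fun h => h3 h.1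
    have m1 : ((i, 2) : V × Fin 3) ≠ (p, 1) := fun h => hip (congrArg Prod.fst h)
    have m2 : ((i, 2) : V × Fin 3) ≠ (q, 1) := fun h => hiq (congrArg Prod.fst h)
    have m3 : ((k, 0) : V × Fin 3) ≠ (p, 1) := fun h => hkp (congrArg Prod.fst h)
    have m4 : ((k, 0) : V × Fin 3) ≠ (q, 1) := fun h => hkq (congrArg Prod.fst h)
    have c1 : (jets G 2)ᶜ.Adj (i, 2) (p, 1) := ⟨m1, e3⟩
    have c2 : (jets G 2)ᶜ.Adj (i, 2) (q, 1) := ⟨m2, e4⟩
    have c3 : (jets G 2)ᶜ.Adj (k, 0) (p, 1) := ⟨m3, e5⟩
    have c4 : (jets G 2)ᶜ.Adj (k, 0) (q, 1) := ⟨m4, e6⟩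
    have c5 : ¬ (jets G 2)ᶜ.Adj (i, 2) (k, 0) := fun h => h.2 e1
    have c6 : ¬ (jets G 2)ᶜ.Adj (p, 1) (q, 1) := fun h => h.2 e2
    rcases ha with rfl | rfl | rfl | rfl <;> rcases hb with rfl | rfl | rfl | rfl <;>
      simp only [f0, f1, f2, f3]
    · exact iff_of_false ((jets G 2)ᶜ.loopless.irrefl _) (by decide)
    · exact iff_of_true c1 (by decide)
    · exact iff_of_false c5 (by decide)
    · exact iff_of_true c2 (by decide)
    · exact iff_of_true c1.symm (by decide)
    · exact iff_of_false ((jets G 2)ᶜ.loopless.irrefl _) (by decide)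
    · exact iff_of_true c3.symm (by decide)
    · exact iff_of_false c6 (by decide)
    · exact iff_of_false (fun h => c5 h.symm) (by decide)
    · exact iff_of_true c3 (by decide)
    · exact iff_of_false ((jets G 2)ᶜ.loopless.irrefl _) (by decide)
    · exact iff_of_true c4 (by decide)
    · exact iff_of_true c2.symm (by decide)
    · exact iff_of_false (fun h => c6 h.symm) (by decide)
    · exact iff_of_true c4.symm (by decide)
    · exact iff_of_false ((jets G 2)ᶜ.loopless.irrefl _) (by decide)

/-- Jet graphs of complete multipartite graphs are co-chordal. -/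
lemma multipartite (htrans : ∀ a b c : V, ¬ G.Adj a b → ¬ G.Adj b c → ¬ G.Adj a c) (s : ℕ) :
    IsCochordal (jets G s) := by
  rintro n hn ⟨f, hf, hadj⟩
  have ne1 : (1 : ZMod n) ≠ 0 := by
    have : ((1 : ℕ) : ZMod n) ≠ 0 := by
      rw [Ne, ZMod.natCast_eq_zero_iff]; intro h; have := Nat.le_of_dvd (by norm_num) h; omega
    simpa using this
  have ne2 : (2 : ZMod n) ≠ 0 := by
    have : ((2 : ℕ) : ZMod n) ≠ 0 := by
      rw [Ne, ZMod.natCast_eq_zero_iff]; intro h; have := Nat.le_of_dvd (by norm_num) h; omega
    simpa using this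
  have ne3 : (3 : ZMod n) ≠ 0 := by
    have : ((3 : ℕ) : ZMod n) ≠ 0 := by
      rw [Ne, ZMod.natCast_eq_zero_iff]; intro h; have := Nat.le_of_dvd (by norm_num) h; omega
    simpa using this
  -- reformulation of the adjacency in the complement
  have hc : ∀ i j, i ≠ j → ((¬ G.Adj (f i).1 (f j).1 ∨ s < ((f i).2 : ℕ) + (f j).2) ↔
      (j = i + 1 ∨ i = j + 1)) := by
    intro i j hij
    rw [← hadj i j, SimpleGraph.compl_adj]
    constructor
    · intro h
      refine ⟨fun h' => hij (hf h'), fun h' => ?_⟩
      rcases h with h | h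
      · exact h h'.1
      · have := h'.2; omega
    · rintro ⟨-, h⟩
      by_contra hcon
      push Not at hcon
      exact h ⟨hcon.1, hcon.2⟩
  have hstep : ∀ i : ZMod n, i ≠ i + 1 := fun i h => ne1 (by linear_combination -h)
  have hne2 : ∀ i : ZMod n, i ≠ i + 2 := fun i h => ne2 (by linear_combination -h)
  -- vertices at distance two in the cycle are neither adjacent in the complement
  have hfar : ∀ i : ZMod n, G.Adj (f i).1 (f (i + 2)).1 ∧
      ((f i).2 : ℕ) + (f (i + 2)).2 ≤ s := by
    intro i
    by_contra hcon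
    have h1 : ¬ G.Adj (f i).1 (f (i + 2)).1 ∨ s < ((f i).2 : ℕ) + (f (i + 2)).2 := by
      by_contra h2
      push Not at h2
      exact hcon h2
    rcases (hc i (i + 2) (hne2 i)).mp h1 with h | h
    · exact ne1 (by linear_combination h)
    · exact ne3 (by linear_combination -h)
  -- the high vertices
  let Hi : ZMod n → Prop := fun i => s < 2 * ((f i).2 : ℕ)
  have hhigh : ∀ i j, i ≠ j → Hi i → Hi j → j = i + 1 ∨ i = j + 1 := by
    intro i j hij h1 h2
    rw [← hc i j hij]
    right
    simp only [Hi] at h1 h2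
    omega
  have hlow : ∀ i, ¬ Hi i → ¬ Hi (i + 1) → ¬ G.Adj (f i).1 (f (i + 1)).1 := by
    intro i h1 h2
    rcases (hc i (i + 1) (hstep i)).mpr (Or.inl rfl) with h | h
    · exact h
    · simp only [Hi] at h1 h2
      omega
  -- all high vertices are among two consecutive ones
  obtain ⟨b, hb⟩ : ∃ b, ∀ j, Hi j → j = b ∨ j = b + 1 := by
    by_cases hex : ∃ h, Hi h
    · obtain ⟨h, hh⟩ := hex
      by_cases hprev : Hi (h - 1)
      · refine ⟨h - 1, fun j hj => ?_⟩
        by_cases hj1 : j = h
        · right; rw [hj1]; ring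
        · rcases hhigh h j (Ne.symm hj1) hh hj with h' | h'
          · exfalso
            have h4 : h - 1 ≠ j := fun h5 => ne2 (by linear_combination -h5 - h')
            rcases hhigh (h - 1) j h4 hprev hj with h5 | h5
            · exact ne1 (by linear_combination h5 - h')
            · exact ne3 (by linear_combination -h5 - h')
          · left; rw [h']; ring
      · refine ⟨h, fun j hj => ?_⟩
        by_cases hj1 : j = h
        · left; exact hj1
        · rcases hhigh h j (Ne.symm hj1) hh hj with h' | h'
          · right; exact h'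
          · exfalso
            apply hprev
            have : h - 1 = j := by rw [h']; ring
            rw [this]; exact hj
    · exact ⟨0, fun j hj => absurd ⟨j, hj⟩ hex⟩
  have low2 : ¬ Hi (b + 2) := by
    intro h
    rcases hb _ h with h | h
    · exact ne2 (by linear_combination h)
    · exact ne1 (by linear_combination h)
  have low3 : ¬ Hi (b + 2 + 1) := by
    intro h
    rcases hb _ h with h | h
    · exact ne3 (by linear_combination h)
    · exact ne2 (by linear_combination h)
  have s23 := hlow (b + 2) low2 low3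
  rcases Nat.lt_or_ge 4 n with h5 | h4
  · -- cycles of length at least 5
    have ne4 : (4 : ZMod n) ≠ 0 := by
      have : ((4 : ℕ) : ZMod n) ≠ 0 := by
        rw [Ne, ZMod.natCast_eq_zero_iff]; intro h; have := Nat.le_of_dvd (by norm_num) h; omega
      simpa using this
    have low4 : ¬ Hi (b + 2 + 1 + 1) := by
      intro h
      rcases hb _ h with h | h
      · exact ne4 (by linear_combination h)
      · exact ne3 (by linear_combination h)
    have s34 := hlow (b + 2 + 1) low3 low4
    have e : b + 2 + 1 + 1 = b + 2 + 2 := by ring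
    rw [e] at s34
    exact htrans _ _ _ s23 s34 (hfar (b + 2)).1
  · -- cycles of length 4
    have hn4 : n = 4 := by omega
    have four : (4 : ZMod n) = 0 := by
      have : ((4 : ℕ) : ZMod n) = 0 := by
        rw [ZMod.natCast_eq_zero_iff, hn4]
      simpa using this
    have e3 : b + 2 + 1 = b + 1 + 2 := by ring
    have e4 : b + 2 + 1 + 1 = b := by linear_combination four
    have f02 := hfar b
    have f13 := hfar (b + 1)
    rw [e3] at s23
    have h12 : s < ((f (b + 1)).2 : ℕ) + (f (b + 2)).2 := by
      have e : b + 1 + 1 = b + 2 := by ring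
      rcases (hc (b + 1) (b + 1 + 1) (hstep _)).mpr (Or.inl rfl) with h | h
      · rw [e] at h
        exact absurd f13.1 (htrans _ _ _ h s23)
      · rw [e] at h
        exact h
    have h30 : s < ((f (b + 1 + 2)).2 : ℕ) + (f b).2 := by
      rcases (hc (b + 2 + 1) (b + 2 + 1 + 1) (hstep _)).mpr (Or.inl rfl) with h | h
      · rw [e4, e3] at h
        have h' := htrans _ _ _ s23 h
        exact absurd f02.1 (fun h'' => h' h''.symm)
      · rw [e4, e3] at h
        exact h
    have g1 := f02.2
    have g2 := f13.2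
    omega

/-- If the 2-jets are co-chordal then all jets are. -/
lemma main (hG : G.Connected) (h2 : IsCochordal (jets G 2)) (s : ℕ) : IsCochordal (jets G s) := by
  apply multipartite
  intro a b c hab hbc hac
  exact hbc (dominating hG h2 hac (fun h => hab h.symm))

/-- **Jets of diameter-2 graphs cannot lose co-chordality after order 2.**  If `G` is connected and
`J_2(G)` is co-chordal then all `J_s(G)` are co-chordal; in particular for every `n ≥ 2` there is
no co-chordal graph `G` of diameter 2 with `J_1(G), …, J_n(G)` co-chordal and `J_{n+1}(G)` not. -/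
theorem result : (∀ (V : Type) (G : SimpleGraph V), G.Connected → IsCochordal (jets G 2) →
      ∀ s, IsCochordal (jets G s)) ∧
    ∀ n : ℕ, 2 ≤ n → ¬ ∃ (V : Type) (_ : Fintype V) (G : SimpleGraph V), HasDiameter G 2 ∧
      IsCochordal G ∧ (∀ i, 1 ≤ i → i ≤ n → IsCochordal (jets G i)) ∧
        ¬ IsCochordal (jets G (n + 1)) := by
  refine ⟨fun V G hG h2 s => main hG h2 s, ?_⟩
  rintro n hn ⟨V, _, G, hG, _, h1, h2⟩
  exact h2 (main hG.1 (h1 2 (by norm_num) hn) (n + 1))

end Pool.Agent.Results.MP_bdbea1_co.JetsStayCochordal
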